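import Mathlib
import Pool.Agent.W307.RS.MainD
import Pool.Agent.W307.RT.Tors

/-!
# The average of `2 ^ rank` over the curves with `Z/2 x Z/6`, by minimal discriminant

All elliptic curves over `ℚ` whose group of rational points has a subgroup isomorphic to
`Z/2 x Z/6`, ordered by the absolute value of the minimal discriminant: there are finitely many of
discriminant at most `Z`, the average of `2 ^ rank` over them is bounded by a constant, and their
number tends to infinity with `Z`.
-/

namespace Pool.Agent.Results.MP_6073f3_nt.DiscriminantTwoSix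

open Finset Filter

/-- the curve `y² = x³ + A x + B` over `ℚ` -/
def E (A B : ℤ) : WeierstrassCurve ℚ := ⟨0, 0, 0, (A : ℚ), (B : ℚ)⟩

/-- the absolute value of the minimal discriminant of an elliptic curve `W` over `ℚ`: the smallest
absolute value of the discriminant of a Weierstrass equation `V` with integer coefficients which is
isomorphic to `W` over `ℚ` -/
noncomputable def minDisc (W : WeierstrassCurve ℚ) : ℕ :=
  sInf {n : ℕ | ∃ (V : WeierstrassCurve ℤ) (C : WeierstrassCurve.VariableChange ℚ),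
    C • W = V.map (Int.castRingHom ℚ) ∧ n = V.Δ.natAbs}

/-- The pairs `(A, B)` of integers such that `4 A³ + 27 B² ≠ 0`, there is no prime `p` with
`p⁴ ∣ A` and `p⁶ ∣ B`, the minimal discriminant of `y² = x³ + A x + B` is at most `Z`, and
`Z/2 x Z/6` embeds in the group of its rational points. (Every elliptic curve over `ℚ` is
isomorphic to `E A B` for exactly one pair with the first two properties.) -/
def Fam (Z : ℕ) : Set (ℤ × ℤ) :=
  {c : ℤ × ℤ | 4 * c.1 ^ 3 + 27 * c.2 ^ 2 ≠ 0 ∧
    (∀ p : ℕ, p.Prime → ¬ ((p : ℤ) ^ 4 ∣ c.1 ∧ (p : ℤ) ^ 6 ∣ c.2)) ∧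
    (∃ f : ZMod 2 × ZMod 6 →+ (E c.1 c.2).toAffine.Point, Function.Injective f) ∧
    minDisc (E c.1 c.2) ≤ Z}

lemma Fam_eq (Z : ℕ) : Fam Z = Pool.Agent.W307.RS.DvS 6 Z := by
  ext c
  have h : Pool.Agent.W307.RT.HasT 6 (Pool.Agent.W307.RT.Sh c.1 c.2) ↔
      ∃ f : ZMod 2 × ZMod 6 →+ (E c.1 c.2).toAffine.Point, Function.Injective f :=
    Pool.Agent.W307.RT.tors_iff
  unfold Fam Pool.Agent.W307.RS.DvS
  rw [Set.mem_setOf_eq, Set.mem_setOf_eq, h]
  exact Iff.rfl

/-- The number of these curves of minimal discriminant at most `Z` tends to infinity. -/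
theorem card_tendsto : Tendsto (fun Z : ℕ => (Fam Z).ncard) atTop atTop := by
  obtain ⟨C, hC⟩ := Pool.Agent.W307.RS.disc6
  have h1 := Pool.Agent.W307.RT.tendsto_of_low Pool.Agent.W376.RTL.low6
  have h2 : Tendsto (fun Z : ℕ => (Pool.Agent.W307.RT.Cv 6 (Z / 32)).card) atTop atTop :=
    h1.comp (Nat.tendsto_div_const_atTop (by norm_num))
  refine tendsto_atTop_mono (fun Z => ?_) h2
  rw [Fam_eq, ← Set.ncard_coe_finset]
  exact Set.ncard_le_ncard (Pool.Agent.W307.RS.Cv_sub Pool.Agent.W554.RS.mdl 6 (Z / 32) Z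
    (Nat.mul_div_le Z 32)) (hC Z).1

/-- **Theorem.** There are finitely many elliptic curves over `ℚ` with a subgroup `Z/2 x Z/6` and
minimal discriminant at most `Z` in absolute value, and the average of `2 ^ rank` over them is
bounded. -/
theorem result : ∃ C : ℝ, ∀ Z : ℕ, ∃ hfin : (Fam Z).Finite,
    ∑ c ∈ hfin.toFinset, (2 : ℝ) ^ Module.finrank ℤ (E c.1 c.2).toAffine.Point ≤
      C * hfin.toFinset.card := by
  obtain ⟨C, hC⟩ := Pool.Agent.W307.RS.disc6
  refine ⟨C, fun Z => ?_⟩
  obtain ⟨h1, h2⟩ := hC Z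
  rw [← Fam_eq] at h1 h2
  exact ⟨h1, h2 h1.toFinset h1.coe_toFinset⟩

end Pool.Agent.Results.MP_6073f3_nt.DiscriminantTwoSix
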